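import Pool.Agent.W619.Y.Stm

/-! Project PG, part PRES: derivations which preserve the valuation ring below preserve the valuation
ring above. -/

set_option autoImplicit false
set_option linter.overlappingInstances false
set_option linter.unusedSectionVars false

universe u v

open Polynomial FF IsDedekindDomain

namespace Pool.Agent.W762.PG

open Pool.Agent.W603.LV Pool.Agent.W619.PQ

section

variable {k K L : Type*} [Field k] [Field K] [Field L] [Algebra k K] [Algebra k L] [Algebra K L]
  [IsScalarTower k K L]

theorem bounded [CharZero k] [FiniteDimensional K L] (v : Place k K) (w : Place k L) (e : ℕ)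
    (h : Over w v e) (D : Derivation k L L)
    (hD : ∀ x : K, v.Reg x → w.Reg (D (algebraMap K L x))) :
    ∃ C : ℕ, ∀ z : L, w.Reg z → Ge w (-(C : ℤ)) (D z) := by
  classical
  let iA : Algebra v.O L := algO v
  let ik : Algebra k v.O := algk v
  have : IsDiscreteValuationRing v.O := v.isDVR
  have : CharZero K := charZero_of_injective_algebraMap (algebraMap k K).injective
  have : IsScalarTower v.O K L := IsScalarTower.of_algebraMap_eq fun _ => rfl
  have : IsScalarTower k v.O L := IsScalarTower.of_algebraMap_eq fun c => by
    rw [IsScalarTower.algebraMap_apply k K L]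
    rfl
  let B := integralClosure v.O L
  have : IsDedekindDomain B := integralClosure.isDedekindDomain v.O K L
  have : IsFractionRing B L := integralClosure.isFractionRing_of_finite_extension K L
  have hsc : IsScalarTower k B L := by
    refine IsScalarTower.of_algebraMap_eq fun c => ?_
    rw [IsScalarTower.algebraMap_apply k v.O B, ← IsScalarTower.algebraMap_apply v.O B L,
      ← IsScalarTower.algebraMap_apply k v.O L]
  have hfin : Module.Finite v.O B := IsIntegralClosure.finite v.O K L B
  have hBreg : ∀ b : B, w.Reg (algebraMap B L b) := fun b =>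
    w.reg_of_isIntegral (A := v.O) (fun a => h.reg.2 a.2) b.2
  obtain ⟨S, hS⟩ := hfin.fg_top
  set C : ℕ := ∑ s ∈ S, (w.ord (D (s : L))).natAbs with hC
  have hbd : ∀ b : B, Ge w (-(C : ℤ)) (D (b : L)) := by
    intro b
    have hb : b ∈ Submodule.span v.O (S : Set B) := by rw [hS]; trivial
    induction hb using Submodule.span_induction with
    | mem s hs =>
      right
      have h1 : (w.ord (D (s : L))).natAbs ≤ C :=
        Finset.single_le_sum (f := fun s : B => (w.ord (D (s : L))).natAbs)
          (fun _ _ => Nat.zero_le _) hs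
      omega
    | zero =>
      left
      exact map_zero D
    | add x y _ _ hx hy =>
      have : D ((x + y : B) : L) = D (x : L) + D (y : L) := map_add D _ _
      rw [this]
      exact hx.add hy
    | smul a x _ hx =>
      have h1 : ((a • x : B) : L) = algebraMap K L (a : K) * (x : L) := rfl
      rw [h1, D.leibniz, smul_eq_mul, smul_eq_mul]
      have h2 : Ge w 0 (algebraMap K L (a : K)) := h.reg.2 a.2
      have h3 : Ge w 0 (x : L) := hBreg x
      have h4 : Ge w 0 (D (algebraMap K L (a : K))) := hD _ a.2
      refine Ge.add ?_ ?_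
      · simpa using h2.mul hx
      · exact (by simpa using h3.mul h4 : Ge w 0 _).mono (by omega)
  refine ⟨C, fun z hz => ?_⟩
  by_cases hz0 : z = 0
  · left; rw [hz0, map_zero]
  obtain ⟨P, hP⟩ := exists_placeOf_eq (k := k) (L := L) (B := B) w hBreg
  have h1 : 0 ≤ (placeOf (k := k) (L := L) P).ord z := by
    rw [hP]; exact (w.reg_iff hz0).1 hz
  rw [placeOf_nonneg P hz0] at h1
  obtain ⟨n, d, hnd⟩ := P.exists_primeCompl_mul_eq_of_integer z h1
  have hd := placeOf_red_eq_zero (k := k) (L := L) P (d : B)
  have hd2 : ¬ (placeOf (k := k) (L := L) P).red (algebraMap B L d) = 0 := fun h => d.2 (hd.1 h)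
  rw [Place.red_eq_zero_iff _ (placeOf_reg P _)] at hd2
  push Not at hd2
  rw [hP] at hd2
  have hreg : w.Reg (algebraMap B L d) := hBreg _
  have hdord : w.ord (algebraMap B L d) = 0 := by
    have := (w.reg_iff hd2.1).1 hreg
    omega
  have hd0 : algebraMap B L d ≠ 0 := hd2.1
  have e1 : D z = (D (algebraMap B L n) - z * D (algebraMap B L d)) * (algebraMap B L d)⁻¹ := by
    rw [← hnd, D.leibniz, smul_eq_mul, smul_eq_mul]
    field_simp
    ring
  have hn' : Ge w (-(C : ℤ)) (D (algebraMap B L n)) := hbd n
  have hd' : Ge w (-(C : ℤ)) (D (algebraMap B L d)) := hbd d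
  have hz' : Ge w 0 z := hz
  have hdi : Ge w 0 (algebraMap B L d)⁻¹ := Or.inr (by rw [w.ord_inv, hdord]; simp)
  rw [e1]
  have h3 : Ge w (-(C : ℤ)) (z * D (algebraMap B L d)) := by simpa using hz'.mul hd'
  simpa using (hn'.sub h3).mul hdi

theorem der_aeval (D : Derivation k L L) (x : L) (s : Finset ℕ) (c : ℕ → K) :
    D (aeval x (∑ i ∈ s, monomial i (c i))) =
      (∑ i ∈ s, D (algebraMap K L (c i)) * x ^ i) +
        aeval x (derivative (∑ i ∈ s, monomial i (c i))) * D x := by
  classical
  induction s using Finset.induction_on with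
  | empty => simp
  | insert i s hi ih =>
    rw [Finset.sum_insert hi, Finset.sum_insert hi, map_add, map_add, ih, derivative_add, map_add,
      aeval_monomial, derivative_monomial, aeval_monomial, D.leibniz, D.leibniz_pow, map_mul,
      map_natCast]
    simp only [smul_eq_mul, nsmul_eq_mul]
    ring

theorem poly_key [CharZero k] (v : Place k K) (w : Place k L) (e : ℕ)
    (h : Over w v e) (D : Derivation k L L)
    (hD : ∀ x : K, v.Reg x → w.Reg (D (algebraMap K L x))) (N : ℤ) (hN : N + 1 ≤ 0) (x : L)
    (hx : w.Reg x) (hm : ∀ z, Ge w 1 z → Ge w (N + 1) (D z)) (hne : ¬ Ge w (N + 1) (D x)) :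
    ∀ (n : ℕ) (P : K[X]), P.natDegree = n → (∀ i, v.Reg (P.coeff i)) →
      (∃ i, P.coeff i ≠ 0 ∧ v.ord (P.coeff i) = 0) → ¬ Ge w 1 (aeval x P) := by
  have hx' : Ge w 0 x := hx
  have he : (0 : ℤ) < e := by exact_mod_cast h.1
  have hxi : ∀ i : ℕ, Ge w 0 (x ^ i) := fun i => by simpa using hx'.pow i
  have hpos : ∀ c : K, Ge v 1 c → Ge w 1 (algebraMap K L c) := by
    intro c hc
    rcases hc with rfl | hc
    · left; exact map_zero _
    · right
      rw [h.2]
      nlinarith
  have hnat : ∀ i : ℕ, i ≠ 0 → v.ord (i : K) = 0 := by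
    intro i hi
    have h1 : algebraMap k K (i : k) = (i : K) := map_natCast _ _
    rw [← h1]
    exact v.ord_const (by exact_mod_cast hi)
  have hcharK : CharZero K := charZero_of_injective_algebraMap (algebraMap k K).injective
  intro n
  induction n using Nat.strong_induction_on with
  | _ n ih =>
    intro P hPn hreg hprim hcon
    have hsum : aeval x P = ∑ i ∈ Finset.range (P.natDegree + 1),
        algebraMap K L (P.coeff i) * x ^ i := by
      rw [aeval_eq_sum_range]
      exact Finset.sum_congr rfl fun i _ => Algebra.smul_def _ _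
    by_cases hP' : Ge w 1 (aeval x (derivative P))
    · by_cases hex : ∃ i, (derivative P).coeff i ≠ 0 ∧ v.ord ((derivative P).coeff i) = 0
      · by_cases hdeg : P.natDegree = 0
        · obtain ⟨i, hi, _⟩ := hex
          rw [natDegree_eq_zero.1 hdeg |>.choose_spec.symm] at hi
          simp at hi
        · refine ih (derivative P).natDegree ?_ (derivative P) rfl ?_ hex hP'
          · rw [← hPn]
            exact natDegree_derivative_lt hdeg
          · intro i
            rw [coeff_derivative]
            refine v.reg_mul (hreg _) ?_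
            right
            have := hnat (i + 1) (by omega)
            push_cast at this
            exact this.ge
      · push Not at hex
        have hc : ∀ i : ℕ, 1 ≤ i → Ge v 1 (P.coeff i) := by
          intro i hi
          obtain ⟨j, rfl⟩ : ∃ j, i = j + 1 := ⟨i - 1, by omega⟩
          by_cases h0 : P.coeff (j + 1) = 0
          · exact Or.inl h0
          · right
            have h1 := hex j
            rw [coeff_derivative] at h1
            have hj0 : ((j : K) + 1) ≠ 0 := by exact_mod_cast Nat.succ_ne_zero j
            have hjo : v.ord ((j : K) + 1) = 0 := by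
              have := hnat (j + 1) (by omega)
              push_cast at this
              exact this
            have h2 := h1 (mul_ne_zero h0 hj0)
            rw [v.ord_mul h0 hj0, hjo, add_zero] at h2
            have h3 := (v.reg_iff h0).1 (hreg (j + 1))
            omega
        have h0 : P.coeff 0 ≠ 0 ∧ v.ord (P.coeff 0) = 0 := by
          obtain ⟨i, hi0, hi⟩ := hprim
          rcases Nat.eq_zero_or_pos i with rfl | hip
          · exact ⟨hi0, hi⟩
          · have := (hc i hip).resolve_left hi0
            omega
        have h1 : Ge w 1 (algebraMap K L (P.coeff 0)) := by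
          have h2 : algebraMap K L (P.coeff 0) = aeval x P - ∑ i ∈ Finset.range P.natDegree,
              algebraMap K L (P.coeff (i + 1)) * x ^ (i + 1) := by
            rw [hsum, Finset.sum_range_succ']
            simp
          rw [h2]
          refine hcon.sub (Ge.sum _ _ fun i _ => ?_)
          simpa using (hpos _ (hc (i + 1) (by omega))).mul (hxi (i + 1))
        have h3 := h1.resolve_left (by simpa using h0.1)
        rw [h.2, h0.2, mul_zero] at h3
        omega
    · -- the derivative is a unit
      have hP'reg : Ge w 0 (aeval x (derivative P)) := by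
        rw [aeval_eq_sum_range]
        refine Ge.sum _ _ fun i _ => ?_
        rw [Algebra.smul_def, coeff_derivative]
        have h1 : Ge w 0 (algebraMap K L (P.coeff (i + 1) * (i + 1))) := by
          refine h.reg.2 (v.reg_mul (hreg _) ?_)
          right
          have := hnat (i + 1) (by omega)
          push_cast at this
          exact this.ge
        simpa using h1.mul (hxi i)
      have hP'0 : aeval x (derivative P) ≠ 0 := fun h0 => hP' (Or.inl h0)
      have hP'ord : w.ord (aeval x (derivative P)) = 0 := by
        have h1 := hP'reg.resolve_left hP'0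
        have h2 : ¬ 1 ≤ w.ord (aeval x (derivative P)) := fun h2 => hP' (Or.inr h2)
        omega
      apply hne
      have h1 := hm _ hcon
      have h2 := der_aeval D x P.support P.coeff
      rw [← P.as_sum_support] at h2
      have h3 : Ge w (N + 1) (∑ i ∈ P.support, D (algebraMap K L (P.coeff i)) * x ^ i) := by
        refine Ge.sum _ _ fun i _ => ?_
        have h4 : Ge w 0 (D (algebraMap K L (P.coeff i))) := hD _ (hreg i)
        exact (by simpa using h4.mul (hxi i) : Ge w 0 _).mono hN
      have h4 : Ge w (N + 1) (aeval x (derivative P) * D x) := by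
        have h5 : aeval x (derivative P) * D x = D (aeval x P) -
            ∑ i ∈ P.support, D (algebraMap K L (P.coeff i)) * x ^ i := by
          rw [h2]; ring
        rw [h5]
        exact h1.sub h3
      have h6 := Ge.of_mul hP'0 h4
      rwa [hP'ord, sub_zero] at h6

theorem step [CharZero k] [FiniteDimensional K L] (v : Place k K) (w : Place k L) (e : ℕ)
    (h : Over w v e) (D : Derivation k L L)
    (hD : ∀ x : K, v.Reg x → w.Reg (D (algebraMap K L x)))
    (hlog : e = 1 ∨ ∀ x : K, v.Reg x → w.Reg (D (algebraMap K L x) / algebraMap K L x))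
    (N : ℤ) (hN : N + 1 ≤ 0) (hb : ∀ z, w.Reg z → Ge w N (D z)) :
    ∀ z, w.Reg z → Ge w (N + 1) (D z) := by
  have he : (0 : ℤ) < e := by exact_mod_cast h.1
  have hm0 : ∃ π : L, π ≠ 0 ∧ w.ord π = 1 ∧ Ge w (N + 1) (D π) := by
    obtain ⟨s, hs0, hs⟩ := v.surj
    have hsL : algebraMap K L s ≠ 0 := by simpa using hs0
    have hsr : v.Reg s := Or.inr (by omega)
    rcases hlog with he1 | hlog
    · refine ⟨algebraMap K L s, hsL, by rw [h.2, hs, he1]; simp, ?_⟩
      exact (show Ge w 0 (D (algebraMap K L s)) from hD s hsr).mono hN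
    · obtain ⟨π, hπ0, hπ⟩ := w.surj
      refine ⟨π, hπ0, hπ, ?_⟩
      have hcharL : CharZero L := charZero_of_injective_algebraMap (algebraMap k L).injective
      have hpe0 : π ^ e ≠ 0 := pow_ne_zero _ hπ0
      obtain ⟨u, hu⟩ : ∃ u, u = algebraMap K L s / π ^ e := ⟨_, rfl⟩
      have hu0 : u ≠ 0 := by rw [hu]; exact div_ne_zero hsL hpe0
      have huo : w.ord u = 0 := by
        rw [hu, w.ord_div hsL hpe0, h.2, hs, w.ord_pow, hπ]; ring
      have hsu : algebraMap K L s = π ^ e * u := by rw [hu]; field_simp
      have h1 : Ge w e (D (algebraMap K L s)) := by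
        have h2 : Ge w 0 (D (algebraMap K L s) / algebraMap K L s) := hlog s hsr
        have h3 : Ge w e (algebraMap K L s) := Or.inr (by rw [h.2, hs]; omega)
        have h4 := h3.mul h2
        rw [add_zero] at h4
        rwa [mul_div_cancel₀ _ hsL] at h4
      have h2 : Ge w (e + N) (π ^ e * D u) := by
        have h3 : Ge w e (π ^ e) := Or.inr (by rw [w.ord_pow, hπ]; omega)
        exact h3.mul (hb u (Or.inr huo.ge))
      have h3 : ((e : L) * π ^ (e - 1) * u) * D π = D (algebraMap K L s) - π ^ e * D u := by
        rw [hsu, D.leibniz, D.leibniz_pow]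
        simp only [smul_eq_mul, nsmul_eq_mul]
        ring
      have heL : (e : L) ≠ 0 := by
        have := h.1
        exact_mod_cast this.ne'
      have heo : w.ord (e : L) = 0 := by
        have h5 : algebraMap k L (e : k) = (e : L) := map_natCast _ _
        rw [← h5]
        have := h.1
        exact w.ord_const (by exact_mod_cast this.ne')
      have hpe1 : π ^ (e - 1) ≠ 0 := pow_ne_zero _ hπ0
      have h4 : Ge w (e + N) (((e : L) * π ^ (e - 1) * u) * D π) := by
        rw [h3]
        exact (h1.mono (by omega)).sub h2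
      have h5 := Ge.of_mul (mul_ne_zero (mul_ne_zero heL hpe1) hu0) h4
      rw [w.ord_mul (mul_ne_zero heL hpe1) hu0, w.ord_mul heL hpe1, heo, w.ord_pow, hπ, huo] at h5
      refine h5.mono ?_
      have := h.1
      push_cast [Nat.cast_sub this]
      omega
  obtain ⟨π, hπ0, hπ, hDπ⟩ := hm0
  have hm : ∀ z, Ge w 1 z → Ge w (N + 1) (D z) := by
    intro z hz
    have hy : Ge w 0 (z / π) := by
      by_cases hz0 : z = 0
      · left; rw [hz0, zero_div]
      · right
        rw [w.ord_div hz0 hπ0, hπ]
        have := hz.resolve_left hz0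
        omega
    have h1 : z = π * (z / π) := by field_simp
    rw [h1, D.leibniz, smul_eq_mul, smul_eq_mul]
    refine Ge.add ?_ ?_
    · have h2 : Ge w 1 π := Or.inr hπ.ge
      have h3 := h2.mul (hb _ hy)
      rwa [add_comm] at h3
    · simpa using hy.mul hDπ
  intro z hz
  by_contra hne
  have hint : IsIntegral K z := Algebra.IsIntegral.isIntegral z
  set p := minpoly K z with hp
  have hp0 : p ≠ 0 := minpoly.ne_zero hint
  obtain ⟨j, hj, hjmin⟩ := Finset.exists_min_image p.support (fun i => v.ord (p.coeff i))
    (by rwa [Finset.nonempty_iff_ne_empty, Ne, support_eq_empty])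
  have hj0 : p.coeff j ≠ 0 := mem_support_iff.1 hj
  refine poly_key v w e h D hD N hN z hz hm hne _ (C (p.coeff j)⁻¹ * p) rfl ?_ ?_ ?_
  · intro i
    rw [coeff_C_mul]
    by_cases hi : p.coeff i = 0
    · left; rw [hi, mul_zero]
    · right
      rw [v.ord_mul (inv_ne_zero hj0) hi, v.ord_inv]
      have := hjmin i (mem_support_iff.2 hi)
      omega
  · refine ⟨j, ?_, ?_⟩
    · rw [coeff_C_mul, inv_mul_cancel₀ hj0]; exact one_ne_zero
    · rw [coeff_C_mul, inv_mul_cancel₀ hj0, v.ord_one]
  · left
    rw [map_mul, hp, minpoly.aeval, mul_zero]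

theorem pres [CharZero k] [FiniteDimensional K L] (v : Place k K) (w : Place k L) (e : ℕ)
    (h : Over w v e) (D : Derivation k L L)
    (hD : ∀ x : K, v.Reg x → w.Reg (D (algebraMap K L x)))
    (hlog : e = 1 ∨ ∀ x : K, v.Reg x → w.Reg (D (algebraMap K L x) / algebraMap K L x)) :
    ∀ z : L, w.Reg z → w.Reg (D z) := by
  obtain ⟨C, hC⟩ := bounded v w e h D hD
  have key : ∀ C : ℕ, (∀ z : L, w.Reg z → Ge w (-(C : ℤ)) (D z)) →
      ∀ z : L, w.Reg z → Ge w 0 (D z) := by
    intro C
    induction C with
    | zero => intro h z hz; simpa using h z hz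
    | succ C ih =>
      intro hb
      apply ih
      intro z hz
      have := step v w e h D hD hlog (-((C + 1 : ℕ) : ℤ)) (by push_cast; omega) hb z hz
      have e1 : -((C + 1 : ℕ) : ℤ) + 1 = -(C : ℤ) := by push_cast; ring
      rwa [e1] at this
  exact key C hC

end

theorem main : Pool.Agent.W619.Y.S_PRES.{u, v} := by
  intro k K L _ _ _ _ _ _ _ _ _ v w e h D hD hlog
  exact pres v w e h D hD hlog

end Pool.Agent.W762.PG
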